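import Pool.Agent.KS6_40.QM.Rank

/-!
# Which rank classes of quasi-maximal sets are definable in the lattice of r.e. sets

The rank of a quasi-maximal set is the least number of maximal sets whose intersection it is. For a
set `S` of numbers let `C S` be the class of the r.e. sets whose rank belongs to `S` (the whole set
`ℕ`, the empty intersection, has rank zero).

**The class `C S` is elementary lattice theoretic if and only if `S` is finite or cofinite**, and
this remains so if the formula may have parameters. The class of all quasi-maximal sets is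
`C {n | 1 ≤ n}`, so it is elementary lattice theoretic (the question of the problem), but for
example the class of the quasi-maximal sets of even rank is not, not even with parameters.

Proof. `S` cofinite: by the theorem of the library on quasi-maximal sets, and as the sets of rank
`n` are definable for each `n`. For the converse a maximal set is constructed (Friedberg), and a
computable decomposition of `ℕ` into one special part and `n` other parts, such that the parameters
are trivial on the other parts. The lattice becomes a product, and the set whose `n` components are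
copies of the same maximal set has rank `n`. A formula of quantifier depth `q` cannot
distinguish the numbers `n` above a threshold (Feferman and Vaught).
-/

set_option autoImplicit false

namespace Pool.Agent.Results.MP_2ea200_lc.RankClasses

open FirstOrder FirstOrder.Language

/-- The lattice of r.e. sets of natural numbers. -/
abbrev E : Type := {s : Set ℕ // REPred (fun n => n ∈ s)}

/-- The order of `E` is inclusion. -/
theorem le_iff (X Y : E) : X ≤ Y ↔ X.1 ⊆ Y.1 := Iff.rfl

/-- `E` as a structure in the language with one binary relation symbol, interpreted as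
inclusion. -/
instance str : Language.order.Structure E := orderStructure E

/-- `M` is a maximal r.e. set: its complement is infinite, and for every r.e. superset `W` the set
`W \ M` or the complement of `W` is finite. -/
def IsMaximal (M : Set ℕ) : Prop :=
  REPred (fun n => n ∈ M) ∧ Mᶜ.Infinite ∧
    ∀ W : Set ℕ, REPred (fun n => n ∈ W) → M ⊆ W → (W \ M).Finite ∨ Wᶜ.Finite

/-- `A` is quasi-maximal: it is the intersection of finitely many (at least one) maximal sets. -/
def IsQuasiMaximal (A : Set ℕ) : Prop :=
  ∃ F : Set (Set ℕ), F.Finite ∧ F.Nonempty ∧ (∀ M ∈ F, IsMaximal M) ∧ A = ⋂₀ F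

/-- `A` is the intersection of `n` maximal sets. -/
def IsMeet (n : ℕ) (A : Set ℕ) : Prop :=
  ∃ M : Fin n → Set ℕ, (∀ i, IsMaximal (M i)) ∧ A = ⋂ i, M i

/-- `n` is the least number of maximal sets whose intersection is `A`. -/
def HasRank (A : Set ℕ) (n : ℕ) : Prop := IsMeet n A ∧ ∀ m < n, ¬ IsMeet m A

/-- The class of the r.e. sets whose rank belongs to `S`. -/
def C (S : Set ℕ) : Set E := {A | ∃ n ∈ S, HasRank A.1 n}

/-- The class is elementary lattice theoretic: first-order definable without parameters. -/
def Elt (K : Set E) : Prop :=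
  ∃ φ : Language.order.Formula (Fin 1), ∀ A : E, φ.Realize (fun _ => A) ↔ A ∈ K

/-- The class is first-order definable in the lattice of r.e. sets with finitely many
parameters. -/
def EltPar (K : Set E) : Prop :=
  ∃ (k : ℕ) (φ : Language.order.Formula (Fin 1 ⊕ Fin k)) (p : Fin k → E),
    ∀ A : E, φ.Realize (Sum.elim (fun _ => A) p) ↔ A ∈ K

/-- **Main theorem.**
(1) For a set `S` of numbers the class `C S` of the r.e. sets whose rank belongs to `S` is
elementary lattice theoretic if and only if `S` is finite or cofinite.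
(2) The same if parameters are allowed.
(3) The class of all quasi-maximal sets is `C {n | 1 ≤ n}`, so it is elementary lattice theoretic.
(4) There are sets of every rank, and the rank is unique, so the classes `C S` are all different.
(5) In particular the class of the quasi-maximal sets of even rank is not definable, even with
parameters. -/
theorem result :
    (∀ S : Set ℕ, Elt (C S) ↔ S.Finite ∨ Sᶜ.Finite) ∧
    (∀ S : Set ℕ, EltPar (C S) ↔ S.Finite ∨ Sᶜ.Finite) ∧
    ((∀ A : E, A ∈ C {n | 1 ≤ n} ↔ IsQuasiMaximal A.1) ∧ Elt {A : E | IsQuasiMaximal A.1}) ∧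
    ((∀ n, ∃ A : E, HasRank A.1 n) ∧ (∀ (A : Set ℕ) (m n : ℕ), HasRank A m → HasRank A n → m = n) ∧
      Function.Injective C) ∧
    ¬ EltPar {A : E | IsQuasiMaximal A.1 ∧ ∃ n, Even n ∧ HasRank A.1 n} := by
  -- cofinite sets
  have hpos : ∀ S : Set ℕ, S.Finite ∨ Sᶜ.Finite → Elt (C S) := by
    rintro S (hS | hS)
    · obtain ⟨φ, hφ⟩ := Pool.Agent.KS6_40.QM.defCls_finite hS (Γ := Fin 1) 0
      exact ⟨φ, fun A => hφ fun _ => A⟩
    · obtain ⟨φ, hφ⟩ := Pool.Agent.KS6_40.QM.defCls_cofinite hS (Γ := Fin 1) 0
      exact ⟨φ, fun A => hφ fun _ => A⟩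
  have hpar : ∀ K : Set E, Elt K → EltPar K := by
    rintro K ⟨φ, hφ⟩
    refine ⟨0, φ.relabel Sum.inl, Fin.elim0, fun A => ?_⟩
    rw [Formula.realize_relabel]
    exact hφ A
  have hqm : ∀ A : E, A ∈ C {n | 1 ≤ n} ↔ IsQuasiMaximal A.1 := fun A =>
    Pool.Agent.KS6_40.QM.qm_iff_qmn.symm
  have huniq : ∀ (A : Set ℕ) (m n : ℕ), HasRank A m → HasRank A n → m = n := fun A m n h h' =>
    Pool.Agent.KS6_40.QM.Rk.unique h h'
  have hex : ∀ n, ∃ A : E, HasRank A.1 n := by
    intro n
    cases n with
    | zero =>
      exact ⟨⟨Set.univ, Pool.Agent.Helper446.EL.re_univ⟩,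
        Pool.Agent.KS6_40.QM.qmn_zero.2 rfl, fun m hm => by omega⟩
    | succ n =>
      obtain ⟨f, u₀, u₁, -, h⟩ := Pool.Agent.KS6_40.QM.exists_copies (β := Empty)
        (fun b => b.elim)
      exact ⟨_, h n⟩
  have hneg : ∀ S : Set ℕ, EltPar (C S) → S.Finite ∨ Sᶜ.Finite := by
    rintro S ⟨k, φ, p, hφ⟩
    obtain ⟨f, u₀, u₁, hp, h⟩ := Pool.Agent.KS6_40.QM.exists_copies p
    have hord : Language.order.OrderedStructure E := ⟨fun x => Iff.rfl⟩
    obtain ⟨N, hN⟩ := Pool.Agent.KS6_40.QM.eventually_const (D := E) (α := Fin 1 ⊕ Fin k) f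
      (Sum.elim (fun _ => u₀ none) fun b => u₀ (some b))
      (Sum.elim (fun _ => u₁ none) fun b => u₁ (some b)) φ
    have hval : ∀ n, (fun a : Fin 1 ⊕ Fin k => f n fun o =>
        o.elim ((Sum.elim (fun _ => u₀ none) fun b => u₀ (some b) : Fin 1 ⊕ Fin k → E) a)
          fun _ => (Sum.elim (fun _ => u₁ none) fun b => u₁ (some b) : Fin 1 ⊕ Fin k → E) a) =
        Sum.elim (fun _ => f n fun o => o.elim (u₀ none) fun _ => u₁ none) p := by
      intro n
      funext a
      rcases a with a | b
      · rfl
      · exact hp n b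
    have hS : ∀ n, φ.Realize (fun a : Fin 1 ⊕ Fin k => f n fun o =>
        o.elim ((Sum.elim (fun _ => u₀ none) fun b => u₀ (some b) : Fin 1 ⊕ Fin k → E) a)
          fun _ => (Sum.elim (fun _ => u₁ none) fun b => u₁ (some b) : Fin 1 ⊕ Fin k → E) a) ↔
        n + 1 ∈ S := by
      intro n
      rw [hval, hφ]
      constructor
      · rintro ⟨m, hm, hr⟩
        rw [huniq _ _ _ hr (h n)] at hm
        exact hm
      · intro hn
        exact ⟨n + 1, hn, h n⟩
    by_cases hNS : N + 1 ∈ S
    · right
      refine (Set.finite_lt_nat (N + 1)).subset ?_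
      intro m hm
      by_contra hcon
      have hcon : ¬ m < N + 1 := hcon
      obtain ⟨n, rfl⟩ : ∃ n, m = n + 1 := ⟨m - 1, by omega⟩
      exact hm ((hS n).1 ((hN n (by omega)).2 ((hS N).2 hNS)))
    · left
      refine (Set.finite_lt_nat (N + 1)).subset ?_
      intro m hm
      by_contra hcon
      have hcon : ¬ m < N + 1 := hcon
      obtain ⟨n, rfl⟩ : ∃ n, m = n + 1 := ⟨m - 1, by omega⟩
      exact hNS ((hS N).1 ((hN n (by omega)).1 ((hS n).2 hm)))
  refine ⟨fun S => ⟨fun h => hneg S (hpar _ h), hpos S⟩,
    fun S => ⟨hneg S, fun h => hpar _ (hpos S h)⟩, ⟨hqm, ?_⟩, ⟨hex, huniq, ?_⟩, ?_⟩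
  · have e : {A : E | IsQuasiMaximal A.1} = C {n | 1 ≤ n} := Set.ext fun A => (hqm A).symm
    rw [e]
    refine hpos _ (Or.inr ((Set.finite_lt_nat 1).subset ?_))
    intro n hn
    have hn : ¬ 1 ≤ n := hn
    show n < 1
    omega
  · intro S T hST
    ext n
    obtain ⟨A, hA⟩ := hex n
    have h1 : ∀ S : Set ℕ, A ∈ C S ↔ n ∈ S := by
      intro S
      constructor
      · rintro ⟨m, hm, hr⟩
        rw [huniq _ _ _ hr hA] at hm
        exact hm
      · intro h
        exact ⟨n, h, hA⟩
    rw [← h1 S, ← h1 T, hST]
  · intro hev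
    have e : {A : E | IsQuasiMaximal A.1 ∧ ∃ n, Even n ∧ HasRank A.1 n} =
        C {n | Even n ∧ 1 ≤ n} := by
      ext A
      constructor
      · rintro ⟨h1, n, hn, hr⟩
        obtain ⟨m, hm, hr'⟩ := (hqm A).2 h1
        have := huniq _ _ _ hr hr'
        subst this
        exact ⟨n, ⟨hn, hm⟩, hr⟩
      · rintro ⟨n, ⟨hn, h1⟩, hr⟩
        exact ⟨(hqm A).1 ⟨n, h1, hr⟩, n, hn, hr⟩
    rw [e] at hev
    rcases hneg _ hev with h | h
    · refine Set.infinite_of_injective_forall_mem (f := fun n : ℕ => 2 * n + 2) ?_ ?_ h
      · intro a b hab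
        simpa using hab
      · intro n
        exact ⟨⟨n + 1, by ring⟩, by omega⟩
    · refine Set.infinite_of_injective_forall_mem (f := fun n : ℕ => 2 * n + 1) ?_ ?_ h
      · intro a b hab
        simpa using hab
      · intro n hn
        obtain ⟨⟨r, hr⟩, -⟩ := hn
        omega

end Pool.Agent.Results.MP_2ea200_lc.RankClasses
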